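import Mathlib
import Pool.Agent.Zk46.US.Defs

/-! # One slope is cheap -/

set_option autoImplicit false

namespace Pool.Agent.Zk46.US

open Finset
open Pool.Agent.R470.AK
open Pool.Agent.Zk73.AK

theorem single (r : ℚ) (hr : r ≠ -1) : Cheap {r} := by
  classical
  refine ⟨0, fun K _ => ?_⟩
  obtain ⟨M, hM⟩ : ∃ M : ℕ, M = 64 ^ 2 ^ K := ⟨_, rfl⟩
  have hM0 : 0 < M := by rw [hM]; positivity
  have hsmall : M ^ 2 ≤ (128 ^ 2 ^ K) ^ 3 := by
    rw [hM, ← pow_mul, ← pow_mul, mul_comm (2 ^ K) 2, mul_comm (2 ^ K) 3, pow_mul, pow_mul]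
    exact Nat.pow_le_pow_left (by norm_num) _
  rw [← hM]
  have hr1 : r + 1 ≠ 0 := fun h => hr (by linarith)
  obtain ⟨y, hy⟩ : ∃ y : ℕ → ℚ, y = fun j : ℕ => (M : ℚ) / (r + 1) * (j : ℚ) := ⟨_, rfl⟩
  obtain ⟨B, hB⟩ : ∃ B : Finset (ℚ × ℚ), B = (range M ×ˢ range M).image
      (fun p : ℕ × ℕ => ((p.1 : ℚ) - r * y p.2, y p.2)) := ⟨_, rfl⟩
  obtain ⟨A, hA0, hA1, hA2⟩ := int_points B
  have hBc : B.card ≤ M ^ 2 := by
    rw [hB]
    refine card_image_le.trans (le_of_eq ?_)
    rw [card_product, card_range, sq]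
  have hBne : B.Nonempty := by
    rw [hB]
    refine (Finset.Nonempty.product ?_ ?_).image _ <;> exact ⟨0, mem_range.2 hM0⟩
  have hBr : ∀ s : ℚ, (B.image fun p => p.1 + s * p.2) =
      (range M ×ˢ range M).image (fun p : ℕ × ℕ => (p.1 : ℚ) + (s - r) * y p.2) := by
    intro s
    rw [hB, image_image]
    refine image_congr fun p _ => ?_
    simp only [Function.comp]
    ring
  refine ⟨A, hA0 hBne, ?_, ?_, ?_, ?_⟩
  · rw [hA1, hBr, card_image_of_injOn, card_product, card_range, sq]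
    intro p hp q hq h
    rw [mem_coe, mem_product, mem_range, mem_range] at hp hq
    simp only [hy] at h
    have e : ∀ j : ℕ, (-1 - r) * ((M : ℚ) / (r + 1) * j) = - (M * j) := by
      intro j
      field_simp
      ring
    rw [e, e] at h
    have h1 : (p.1 : ℤ) - M * p.2 = q.1 - M * q.2 := by
      have : (((p.1 : ℤ) - M * p.2 : ℤ) : ℚ) = (((q.1 : ℤ) - M * q.2 : ℤ) : ℚ) := by
        push_cast
        linarith
      exact_mod_cast this
    have h2 : (M : ℤ) ∣ (p.1 : ℤ) - q.1 := ⟨p.2 - q.2, by linarith⟩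
    have h3 : (p.1 : ℤ) - q.1 = 0 := by
      refine Int.eq_zero_of_abs_lt_dvd h2 ?_
      rw [abs_lt]
      omega
    have h4 : (M : ℤ) * ((p.2 : ℤ) - q.2) = 0 := by linarith
    have h5 : (p.2 : ℤ) - q.2 = 0 := by
      rcases mul_eq_zero.1 h4 with h | h
      · omega
      · exact h
    exact Prod.ext (by omega) (by omega)
  · intro s
    rw [hA1]
    exact card_image_le.trans hBc
  · rw [hA2]
    refine (Nat.pow_le_pow_left ?_ 2).trans hsmall
    have h1 : (B.image fun p => p.2) ⊆ (range M).image y := by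
      intro w hw
      obtain ⟨p, hp, rfl⟩ := mem_image.1 hw
      rw [hB] at hp
      obtain ⟨q, hq, rfl⟩ := mem_image.1 hp
      exact mem_image.2 ⟨q.2, (mem_product.1 hq).2, rfl⟩
    refine (card_le_card h1).trans (card_image_le.trans ?_)
    rw [card_range]
  · intro s hs
    rw [mem_singleton] at hs
    subst hs
    rw [hA1, hBr]
    refine (Nat.pow_le_pow_left ?_ 2).trans hsmall
    have h1 : (range M ×ˢ range M).image (fun p : ℕ × ℕ => (p.1 : ℚ) + (s - s) * y p.2) ⊆
        (range M).image (fun n : ℕ => (n : ℚ)) := by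
      intro w hw
      obtain ⟨p, hp, rfl⟩ := mem_image.1 hw
      refine mem_image.2 ⟨p.1, (mem_product.1 hp).1, ?_⟩
      ring
    refine (card_le_card h1).trans (card_image_le.trans ?_)
    rw [card_range]

end Pool.Agent.Zk46.US
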